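import Pool.Agent.NRP.All

set_option autoImplicit false

/-!
# MP_96f34e_nt: AlmostAllN

For almost all `n`, with any power of the logarithm saved in the exceptional set, there are many `k ≤ √n`
with `n + k` and `n + k²` prime, and the asymptotic formula of Hardy and Littlewood type holds.
-/

namespace Pool.Agent.Results.MP_96f34e_nt.AlmostAllN

open Finset Filter ArithmeticFunction Pool.Agent

/-- number of the `k` modulo `p` with `p ∣ (n + k)(n + k²)` -/
def rho (p n : ℕ) : ℕ := ((range p).filter (fun k => p ∣ (n + k) * (n + k ^ 2))).card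

/-- the singular series, truncated at `z` -/
noncomputable def G (z n : ℕ) : ℝ :=
  ∏ p ∈ (range (z + 1)).filter Nat.Prime, (1 - (rho p n : ℝ) / p) / (1 - 1 / (p : ℝ)) ^ 2

/-- For every `A` there are `B₀` and `c > 0` such that for `B ≥ B₀` and all large `X`, with at most
`X / log^A X` exceptions the integers `1 ≤ n ≤ X` have the property: the sum of `Λ(n+k) Λ(n+k²)` over
`1 ≤ k ≤ √n` is `√n G(z, n)` up to `√X / log^A X`, `z = ⌊log^B X⌋`, and at least
`c √n / (log² n log log n)` of these `k` are such that `n + k` and `n + k²` are prime.  For `z ≥ 2` the factor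
`G(z, n)` is at least `c' / log z` and at most `C log² z` for every `n`. -/
theorem result :
    (∀ A : ℕ, ∃ (B₀ : ℕ) (c : ℝ), 0 < c ∧ ∀ B : ℕ, B₀ ≤ B → ∀ᶠ X : ℕ in atTop, ∃ E : Finset ℕ,
      (E.card : ℝ) ≤ X / Real.log X ^ A ∧ ∀ n : ℕ, 1 ≤ n → n ≤ X → n ∉ E →
        |∑ k ∈ Icc 1 (Nat.sqrt n), vonMangoldt (n + k) * vonMangoldt (n + k ^ 2) -
          Real.sqrt n * G ⌊Real.log X ^ B⌋₊ n| ≤ Real.sqrt X / Real.log X ^ A ∧
        c * Real.sqrt n / (Real.log n ^ 2 * Real.log (Real.log n)) ≤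
          ((((Icc 1 (Nat.sqrt n)).filter
            (fun k => (n + k).Prime ∧ (n + k ^ 2).Prime)).card : ℕ) : ℝ)) ∧
    (∃ c C : ℝ, 0 < c ∧ 0 < C ∧ ∀ z n : ℕ, 2 ≤ z →
      c / Real.log z ≤ G z n ∧ G z n ≤ C * Real.log z ^ 2) := by
  refine ⟨?_, NRP.thm_GAl⟩
  intro A
  obtain ⟨c, hc, hb⟩ := NRP.asm_eb (A + 1)
  obtain ⟨B₀, ha⟩ := NRP.asm_ea (A + 1)
  refine ⟨B₀, c, hc, fun B hB => ?_⟩
  filter_upwards [ha B hB, hb, SI.var_log_large 2] with X h1 h2 hlog
  set E1 : Finset ℕ := (Icc 1 X).filter (fun n => Real.sqrt X / Real.log X ^ (A + 1) <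
    |∑ k ∈ Icc 1 (Nat.sqrt n), GBQ.lam (n + k) * GBQ.lam (n + k ^ 2) -
      Real.sqrt n * NRP.GA (GBQ.zz B X) n|) with hE1
  set E2 : Finset ℕ := (Icc 1 X).filter (fun n : ℕ =>
    (NRP.Pk n : ℝ) < c * Real.sqrt n / (Real.log n ^ 2 * Real.log (Real.log n))) with hE2
  have hpos : 0 < Real.log X := by linarith
  have hpow : 0 < Real.log X ^ A := by positivity
  refine ⟨E1 ∪ E2, ?_, ?_⟩
  · have hcd : ((E1 ∪ E2).card : ℝ) ≤ E1.card + E2.card := by exact_mod_cast card_union_le _ _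
    have hs : 2 * ((X : ℝ) / Real.log X ^ (A + 1)) ≤ X / Real.log X ^ A := by
      rw [pow_succ, ← div_div]
      rw [mul_div_assoc', div_le_iff₀ hpos]
      have : 0 ≤ (X : ℝ) / Real.log X ^ A := by positivity
      nlinarith
    linarith
  · intro n hn1 hn2 hnE
    have hI : n ∈ Icc 1 X := mem_Icc.2 ⟨hn1, hn2⟩
    have n1 : n ∉ E1 := fun hx => hnE (mem_union_left _ hx)
    have n2 : n ∉ E2 := fun hx => hnE (mem_union_right _ hx)
    rw [hE1, mem_filter] at n1
    rw [hE2, mem_filter] at n2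
    have n1' : |∑ k ∈ Icc 1 (Nat.sqrt n), GBQ.lam (n + k) * GBQ.lam (n + k ^ 2) -
        Real.sqrt n * NRP.GA (GBQ.zz B X) n| ≤ Real.sqrt X / Real.log X ^ (A + 1) := by
      by_contra hc'
      exact n1 ⟨hI, not_le.1 hc'⟩
    have n2' : c * Real.sqrt n / (Real.log n ^ 2 * Real.log (Real.log n)) ≤ (NRP.Pk n : ℝ) := by
      by_contra hc'
      exact n2 ⟨hI, not_le.1 hc'⟩
    have hle : Real.sqrt X / Real.log X ^ (A + 1) ≤ Real.sqrt X / Real.log X ^ A := by
      have h1l : 1 ≤ Real.log X := by linarith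
      exact div_le_div_of_nonneg_left (Real.sqrt_nonneg _) hpow
        (pow_le_pow_right₀ h1l (Nat.le_succ A))
    exact ⟨n1'.trans hle, n2'⟩

end Pool.Agent.Results.MP_96f34e_nt.AlmostAllN
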